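import Pool.Agent.Helper28.EX.Hens

/-!
# Chevalley-Warning over a valued field with prime residue field
-/

set_option autoImplicit false

universe u w

namespace Pool.Agent.Helper28.QF

open Pool.Agent.Helper28.EX

variable {K : Type u} {Γ : Type w} [Field K] [LinearOrderedCommGroupWithZero Γ] {v : Valuation K Γ}

theorem v_natCast_le (n : ℕ) : v (n : K) ≤ 1 := by
  induction n with
  | zero => simp
  | succ n ih =>
    rw [Nat.cast_succ]
    exact (v.map_add _ _).trans (max_le ih (by rw [map_one]))

theorem false_of_unit_values (p : ℕ) [Fact p.Prime] [CharP K p]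
    (hres : ∀ x, v x ≤ 1 → ∃ m : ℤ, v (x - m) < 1)
    {σ : Type} [Fintype σ] [DecidableEq σ] (Q : MvPolynomial σ K)
    (hdeg : Q.totalDegree < Fintype.card σ) (h0 : MvPolynomial.eval 0 Q = 0)
    (h1 : ∀ x : σ → ZMod p, x ≠ 0 →
      v (MvPolynomial.eval (fun i => ZMod.castHom (dvd_refl p) K (x i)) Q) = 1) : False := by
  classical
  let alg : Algebra (ZMod p) K := ZMod.algebra K p
  have halg : ∀ c : ZMod p, algebraMap (ZMod p) K c = ZMod.castHom (dvd_refl p) K c := fun c => rfl
  have hv : ∀ c : ZMod p, v (algebraMap (ZMod p) K c) ≤ 1 := by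
    intro c
    rw [← ZMod.natCast_zmod_val c, map_natCast]
    exact v_natCast_le _
  let M : Submodule (ZMod p) K :=
    { carrier := {x | v x < 1}
      zero_mem' := by
        change v 0 < 1
        rw [map_zero]
        exact zero_lt_one
      add_mem' := by
        intro a b ha hb
        change v (a + b) < 1
        exact (v.map_add _ _).trans_lt (max_lt ha hb)
      smul_mem' := by
        intro c x hx
        change v (c • x) < 1
        rw [Algebra.smul_def, map_mul]
        exact (mul_le_mul_left (hv c) _).trans_lt (by rw [one_mul]; exact hx) }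
  have hM : ∀ x : K, x ∈ M ↔ v x < 1 := fun x => Iff.rfl
  obtain ⟨L, hL1, hL⟩ := M.exists_le_ker_of_notMem (v := (1 : K)) (by
    rw [hM, map_one]
    exact lt_irrefl _)
  let G : MvPolynomial σ (ZMod p) :=
    ∑ m ∈ Q.support, MvPolynomial.monomial m (L (Q.coeff m))
  have hG : ∀ x : σ → ZMod p, MvPolynomial.eval x G =
      L (MvPolynomial.eval (fun i => algebraMap (ZMod p) K (x i)) Q) := by
    intro x
    simp only [G]
    rw [map_sum, MvPolynomial.eval_eq', map_sum]
    apply Finset.sum_congr rfl
    intro m _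
    rw [MvPolynomial.eval_monomial, Finsupp.prod_fintype _ _ (fun i => pow_zero _)]
    have h2 : MvPolynomial.coeff m Q * ∏ i, algebraMap (ZMod p) K (x i) ^ m i =
        (∏ i, x i ^ m i) • MvPolynomial.coeff m Q := by
      rw [Algebra.smul_def, map_prod, mul_comm]
      simp only [map_pow]
    rw [h2, map_smul, smul_eq_mul, mul_comm]
  have hGd : G.totalDegree < Fintype.card σ := by
    refine lt_of_le_of_lt ?_ hdeg
    refine (MvPolynomial.totalDegree_finsetSum _ _).trans (Finset.sup_le ?_)
    intro m hm
    exact (MvPolynomial.totalDegree_monomial_le _ _).trans (MvPolynomial.le_totalDegree hm)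
  have hne : ∀ x : σ → ZMod p, x ≠ 0 → MvPolynomial.eval x G ≠ 0 := by
    intro x hx hzero
    rw [hG] at hzero
    have h2 := h1 x hx
    set y := MvPolynomial.eval (fun i => algebraMap (ZMod p) K (x i)) Q with hy
    have h2' : v y = 1 := h2
    obtain ⟨m, hm⟩ := hres y h2'.le
    have h3 : L (y - m) = 0 := hL ((hM _).2 hm)
    have h4 : (m : K) = (m : ZMod p) • (1 : K) := by
      rw [Algebra.smul_def, mul_one, map_intCast]
    rw [map_sub, hzero, h4, map_smul, smul_eq_mul, zero_sub, neg_eq_zero] at h3
    have h5 : (m : ZMod p) = 0 := (mul_eq_zero.1 h3).resolve_right hL1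
    rw [h4, h5, zero_smul, sub_zero, h2'] at hm
    exact lt_irrefl _ hm
  have hcard := char_dvd_card_solutions p hGd
  have hone : Fintype.card { x : σ → ZMod p // MvPolynomial.eval x G = 0 } = 1 := by
    rw [Fintype.card_eq_one_iff]
    refine ⟨⟨0, ?_⟩, ?_⟩
    · rw [hG]
      have h2 : (fun i => algebraMap (ZMod p) K ((0 : σ → ZMod p) i)) = 0 := by
        funext i
        rw [Pi.zero_apply, map_zero, Pi.zero_apply]
      rw [h2, h0, map_zero]
    · rintro ⟨x, hx⟩
      apply Subtype.ext
      by_contra hx0
      exact hne x hx0 hx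
  rw [hone] at hcard
  exact (Fact.out : p.Prime).one_lt.ne' (Nat.dvd_one.1 hcard)

end Pool.Agent.Helper28.QF
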