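import Mathlib

/-!
# Uniformizers of valued fields with value group a ℤ-group and prime residue field
-/

set_option autoImplicit false

universe u w

namespace Pool.Agent.Helper28.QF

variable {K : Type u} {Γ : Type w} [Field K] [LinearOrderedCommGroupWithZero Γ] {v : Valuation K Γ}

/-- `v t` is the largest value below one, the residue field is the prime field, and the value
group is a `ℤ`-group: for every `d ≥ 1` each value is `v t ^ i` times a `d`-th power, `i < d` -/
structure ZUnif (v : Valuation K Γ) (t : K) : Prop where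
  t0 : t ≠ 0
  t1 : v t < 1
  max : ∀ x, v x < 1 → v x ≤ v t
  res : ∀ x, v x ≤ 1 → ∃ m : ℤ, v (x - m) < 1
  grp : ∀ d : ℕ, 0 < d → ∀ x, x ≠ 0 → ∃ (i : ℕ) (y : K), i < d ∧ v x = v (t ^ i * y ^ d)

end Pool.Agent.Helper28.QF
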