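import Pool.Agent.Helper28.EX.Hens

/-!
# Orthogonal bases for ultrametric forms over extremal fields
-/

set_option autoImplicit false

universe u w

namespace Pool.Agent.Helper28.QF

open Pool.Agent.Helper28.EX

variable {K : Type u} {Γ : Type w} [Field K] [LinearOrderedCommGroupWithZero Γ] {v : Valuation K Γ}

/-- an anisotropic form `f` of degree `d` in `n` variables whose value is ultrametric -/
structure NormLike (v : Valuation K Γ) (n d : ℕ) (f : (Fin n → K) → K) : Prop where
  poly : ∃ P : MvPolynomial (Fin n) K, ∀ x, f x = MvPolynomial.eval x P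
  d0 : d ≠ 0
  hom : ∀ (c : K) (x : Fin n → K), f (c • x) = c ^ d * f x
  ult : ∀ a b, v (f (a + b)) ≤ max (v (f a)) (v (f b))
  ani : ∀ x, f x = 0 → x = 0

/-- orthogonal families -/
def Orth (v : Valuation K Γ) {n : ℕ} (d : ℕ) (f : (Fin n → K) → K) {r : ℕ}
    (b : Fin r → Fin n → K) : Prop :=
  (∀ i, b i ≠ 0) ∧ ∀ (y : Fin r → K) (i : Fin r),
    v (y i) ^ d * v (f (b i)) ≤ v (f (∑ j, y j • b j))

variable {n d : ℕ} {f : (Fin n → K) → K}

theorem NormLike.zero (h : NormLike v n d f) : f 0 = 0 := by
  have h1 := h.hom 0 0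
  rw [zero_smul, zero_pow h.d0, zero_mul] at h1
  exact h1

theorem NormLike.v_neg (h : NormLike v n d f) (x : Fin n → K) : v (f (-x)) = v (f x) := by
  have h1 := h.hom (-1) x
  rw [neg_one_smul] at h1
  rw [h1, map_mul, map_pow, Valuation.map_neg, map_one, one_pow, one_mul]

theorem NormLike.pos (h : NormLike v n d f) {x : Fin n → K} (hx : x ≠ 0) : 0 < v (f x) := by
  rw [zero_lt_iff, Valuation.ne_zero_iff]
  exact fun h0 => hx (h.ani x h0)

theorem NormLike.smul (h : NormLike v n d f) (c : K) (x : Fin n → K) :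
    v (f (c • x)) = v c ^ d * v (f x) := by
  rw [h.hom, map_mul, map_pow]

/-- `v f (a - w) ≥ v f w` if `v f a < v f w` -/
theorem NormLike.sub_ge (h : NormLike v n d f) {a w : Fin n → K} (hw : v (f a) < v (f w)) :
    v (f w) ≤ v (f (a - w)) := by
  have h1 := h.ult a (-(a - w))
  have h2 : a + -(a - w) = w := by abel
  rw [h2, h.v_neg] at h1
  rcases le_max_iff.1 h1 with h3 | h3
  · exact absurd hw (not_lt.2 h3)
  · exact h3

theorem NormLike.scale (h : NormLike v n d f) {a b : Fin n → K} (hb : b ≠ 0) :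
    ∃ s : K, s ≠ 0 ∧ v (f a) ≤ v s ^ d * v (f b) := by
  have hp := h.pos hb
  by_cases hab : v (f a) ≤ v (f b)
  · exact ⟨1, one_ne_zero, by rw [map_one, one_pow, one_mul]; exact hab⟩
  · rw [not_le] at hab
    have hfb : v (f b) ≠ 0 := hp.ne'
    have hfa : f a ≠ 0 := by
      intro h0
      rw [h0, map_zero] at hab
      exact not_lt_zero hab
    refine ⟨f a / f b, div_ne_zero hfa ((Valuation.ne_zero_iff v).1 hfb), ?_⟩
    have h1 : 1 ≤ v (f a / f b) := by
      rw [map_div₀, one_le_div₀ hp]
      exact hab.le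
    calc v (f a) = v (f a / f b) * v (f b) := by rw [map_div₀, div_mul_cancel₀ _ hfb]
      _ ≤ v (f a / f b) ^ d * v (f b) := mul_le_mul_left (le_self_pow₀ h1 h.d0) _

/-- best approximations exist -/
theorem NormLike.approx (hx : Extremal v) (h : NormLike v n d f) {r : ℕ}
    {b : Fin r → Fin n → K} (hb : Orth v d f b) (a : Fin n → K) :
    ∃ x : Fin r → K, ∀ y : Fin r → K, v (f (a - ∑ i, x i • b i)) ≤ v (f (a - ∑ i, y i • b i)) := by
  obtain ⟨P, hP⟩ := h.poly
  choose s hs0 hs using fun i => h.scale (a := a) (hb.1 i)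
  let F : MvPolynomial (Fin r) K := MvPolynomial.aeval (fun k : Fin n =>
    MvPolynomial.C (a k) - ∑ i, MvPolynomial.X i * MvPolynomial.C (s i * b i k)) P
  have hF : ∀ x : Fin r → K, MvPolynomial.eval x F = f (a - ∑ i, (x i * s i) • b i) := by
    intro x
    rw [hP]
    simp only [F]
    rw [MvPolynomial.aeval_def, MvPolynomial.algebraMap_eq, MvPolynomial.eval₂_eq', map_sum,
      MvPolynomial.eval_eq' _ P]
    apply Finset.sum_congr rfl
    intro m _
    rw [map_mul, MvPolynomial.eval_C, map_prod]
    congr 1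
    apply Finset.prod_congr rfl
    intro k _
    rw [map_pow, map_sub, MvPolynomial.eval_C, map_sum]
    congr 2
    rw [Finset.sum_apply]
    apply Finset.sum_congr rfl
    intro i _
    rw [map_mul, MvPolynomial.eval_X, MvPolynomial.eval_C, Pi.smul_apply, smul_eq_mul, mul_assoc]
  obtain ⟨x, hxO, hmin⟩ := hx r F
  refine ⟨fun i => x i * s i, fun y => ?_⟩
  have key : ∀ z : Fin r → K, (∀ i, v (z i) ≤ 1) →
      v (f (a - ∑ i, (x i * s i) • b i)) ≤ v (f (a - ∑ i, (z i * s i) • b i)) := by
    intro z hz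
    have h1 := hmin z hz
    rwa [hF, hF] at h1
  by_cases hy : ∀ i, v (y i) ≤ v (s i)
  · have h1 := key (fun i => y i / s i) (by
      intro i
      rw [map_div₀, div_le_one₀ (zero_lt_iff.2 ((Valuation.ne_zero_iff v).2 (hs0 i)))]
      exact hy i)
    have h2 : ∀ i, y i / s i * s i = y i := fun i => div_mul_cancel₀ _ (hs0 i)
    simp only [h2] at h1
    exact h1
  · push Not at hy
    obtain ⟨i, hi⟩ := hy
    have h1 : v (f a) < v (f (∑ j, y j • b j)) := by
      calc v (f a) ≤ v (s i) ^ d * v (f (b i)) := hs i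
        _ < v (y i) ^ d * v (f (b i)) :=
            mul_lt_mul_of_pos_right (pow_lt_pow_left₀ hi zero_le h.d0) (h.pos (hb.1 i))
        _ ≤ _ := hb.2 y i
    have h3 := key (fun _ => 0) (fun _ => by rw [map_zero]; exact zero_le_one)
    simp only [zero_mul, zero_smul, Finset.sum_const_zero, sub_zero] at h3
    exact (h3.trans h1.le).trans (h.sub_ge h1)

theorem NormLike.extend (hx : Extremal v) (h : NormLike v n d f) {r : ℕ}
    {b : Fin r → Fin n → K} (hb : Orth v d f b) (hr : r < n) :
    ∃ b' : Fin (r + 1) → Fin n → K, Orth v d f b' := by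
  obtain ⟨a, ha⟩ : ∃ a : Fin n → K, a ∉ Submodule.span K (Set.range b) := by
    by_contra hn
    push Not at hn
    have h1 : Submodule.span K (Set.range b) = ⊤ := by
      rw [Submodule.eq_top_iff']
      exact hn
    have h2 := finrank_range_le_card (R := K) b
    rw [Set.finrank, h1, finrank_top, Module.finrank_fin_fun, Fintype.card_fin] at h2
    omega
  obtain ⟨x, hxmin⟩ := h.approx hx hb a
  set b0 := a - ∑ i, x i • b i with hb0
  have hb0ne : b0 ≠ 0 := by
    intro h0
    apply ha
    rw [sub_eq_zero.1 h0]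
    exact Submodule.sum_mem _ fun i _ =>
      Submodule.smul_mem _ _ (Submodule.subset_span (Set.mem_range_self i))
  refine ⟨Fin.cons b0 b, ?_, ?_⟩
  · intro i
    refine Fin.cases ?_ (fun j => ?_) i
    · rw [Fin.cons_zero]; exact hb0ne
    · rw [Fin.cons_succ]; exact hb.1 j
  · intro y i
    rw [Fin.sum_univ_succ]
    simp only [Fin.cons_zero, Fin.cons_succ]
    set w := ∑ j : Fin r, y j.succ • b j with hw
    have key : v (y 0) ^ d * v (f b0) ≤ v (f (y 0 • b0 + w)) := by
      by_cases hy0 : y 0 = 0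
      · rw [hy0, map_zero, zero_pow h.d0, zero_mul]
        exact zero_le
      · have h1 : y 0 • b0 + w = y 0 • (a - ∑ j, (x j - (y 0)⁻¹ * y j.succ) • b j) := by
          simp only [sub_smul, Finset.sum_sub_distrib]
          rw [hb0, hw, smul_sub, smul_sub, smul_sub, Finset.smul_sum, Finset.smul_sum]
          have h2 : ∀ j : Fin r, y 0 • ((y 0)⁻¹ * y j.succ) • b j = y j.succ • b j := by
            intro j
            rw [smul_smul, mul_inv_cancel_left₀ hy0]
          simp only [h2]
          abel
        rw [h1, h.smul]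
        exact mul_le_mul_right (hxmin _) _
    refine Fin.cases ?_ (fun j => ?_) i
    · rw [Fin.cons_zero]
      exact key
    · rw [Fin.cons_succ]
      refine (hb.2 (fun j => y j.succ) j).trans ?_
      have h2 := h.ult (y 0 • b0 + w) (-(y 0 • b0))
      have h3 : y 0 • b0 + w + -(y 0 • b0) = w := by abel
      rw [h3, h.v_neg, h.smul] at h2
      exact h2.trans (max_le le_rfl key)

/-- there is an orthogonal basis -/
theorem NormLike.basis (hx : Extremal v) (h : NormLike v n d f) :
    ∃ b : Fin n → Fin n → K, Orth v d f b := by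
  have key : ∀ r : ℕ, r ≤ n → ∃ b : Fin r → Fin n → K, Orth v d f b := by
    intro r
    induction r with
    | zero =>
      intro _
      exact ⟨fun i => i.elim0, fun i => i.elim0, fun _ i => i.elim0⟩
    | succ r ih =>
      intro hr
      obtain ⟨b, hb⟩ := ih (by omega)
      exact h.extend hx hb (by omega)
  exact key n le_rfl

theorem NormLike.sum_le (h : NormLike v n d f) {ι : Type} (s : Finset ι) (w : ι → Fin n → K)
    (c : Γ) (hw : ∀ i ∈ s, v (f (w i)) ≤ c) : v (f (∑ i ∈ s, w i)) ≤ c := by
  classical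
  induction s using Finset.induction_on with
  | empty => rw [Finset.sum_empty, h.zero, map_zero]; exact zero_le
  | insert i s hi ih =>
    rw [Finset.sum_insert hi]
    exact (h.ult _ _).trans (max_le (hw i (Finset.mem_insert_self i s))
      (ih fun j hj => hw j (Finset.mem_insert_of_mem hj)))

end Pool.Agent.Helper28.QF
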