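import Pool.Agent.Helper28.QF.Root
import Pool.Agent.Helper28.QF.Orth
import Pool.Agent.Helper28.QF.CW
import Pool.Agent.Helper28.QF.Defs

/-!
# Ultrametric forms and cubic forms over extremal fields
-/

set_option autoImplicit false

universe u w

namespace Pool.Agent.Helper28.QF

open Pool.Agent.Helper28.EX

variable {K : Type u} {Γ : Type w} [Field K] [LinearOrderedCommGroupWithZero Γ] {v : Valuation K Γ}

theorem eval_smul_of_homogeneous {n d : ℕ} {P : MvPolynomial (Fin n) K} (hP : P.IsHomogeneous d)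
    (c : K) (x : Fin n → K) :
    MvPolynomial.eval (c • x) P = c ^ d * MvPolynomial.eval x P := by
  rw [MvPolynomial.eval_eq', MvPolynomial.eval_eq', Finset.mul_sum]
  apply Finset.sum_congr rfl
  intro m hm
  have h1 : ∑ i, m i = d := by
    have h2 := hP (MvPolynomial.mem_support_iff.1 hm)
    rw [Finsupp.weight_apply, Finsupp.sum_fintype _ _ (fun i => by simp)] at h2
    simpa using h2
  simp only [Pi.smul_apply, smul_eq_mul, mul_pow]
  rw [Finset.prod_mul_distrib, Finset.prod_pow_eq_pow_sum, h1]
  ring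

/-- no ultrametric anisotropic form of degree `d` in more than `d ^ 2` variables -/
theorem not_normLike (p : ℕ) [Fact p.Prime] [CharP K p] (hx : Extremal v) {t : K}
    (ht : ZUnif v t) {n d : ℕ} (hn : d ^ 2 < n) {P : MvPolynomial (Fin n) K}
    (hP : P.IsHomogeneous d) (h : NormLike v n d (fun x => MvPolynomial.eval x P)) : False := by
  classical
  obtain ⟨b, hb⟩ := h.basis hx
  have hf : ∀ k, MvPolynomial.eval (b k) P ≠ 0 := fun k h0 => hb.1 k (h.ani _ h0)
  choose i y hi hy using fun k => ht.grp d (Nat.pos_of_ne_zero h.d0) _ (hf k)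
  have hy0 : ∀ k, y k ≠ 0 := by
    intro k h0
    have h1 := hy k
    rw [h0, zero_pow h.d0, mul_zero, map_zero, Valuation.zero_iff] at h1
    exact hf k h1
  obtain ⟨i0, -, hi0⟩ := Finset.exists_lt_card_fiber_of_mul_lt_card_of_maps_to
    (s := (Finset.univ : Finset (Fin n))) (t := Finset.range d) (f := i) (n := d)
    (fun k _ => Finset.mem_range.2 (hi k)) (by
      rw [Finset.card_range, Finset.card_univ, Fintype.card_fin, ← sq]
      exact hn)
  set S : Finset (Fin n) := Finset.univ.filter (fun k => i k = i0) with hS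
  have hSi : ∀ k ∈ S, i k = i0 := fun k hk => (Finset.mem_filter.1 hk).2
  set ρ : K := t ^ i0 with hρ
  have hρ0 : ρ ≠ 0 := pow_ne_zero _ ht.t0
  have hvρ : v ρ ≠ 0 := (Valuation.ne_zero_iff v).2 hρ0
  have he : ∀ k ∈ S, v (MvPolynomial.eval (b k) P) = v ρ * v (y k) ^ d := by
    intro k hk
    rw [hy k, hSi k hk, map_mul, ← map_pow v (y k)]
  let Q : MvPolynomial S K := MvPolynomial.C ρ⁻¹ * MvPolynomial.aeval (fun j : Fin n =>
    ∑ k : S, MvPolynomial.C ((y k)⁻¹ * b k j) * MvPolynomial.X k) P
  have hQ : ∀ x : S → K, MvPolynomial.eval x Q =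
      ρ⁻¹ * MvPolynomial.eval (∑ k : S, (x k * (y k)⁻¹) • b k) P := by
    intro x
    simp only [Q]
    rw [map_mul, MvPolynomial.eval_C]
    congr 1
    rw [MvPolynomial.aeval_def, MvPolynomial.algebraMap_eq, MvPolynomial.eval₂_eq', map_sum,
      MvPolynomial.eval_eq' _ P]
    apply Finset.sum_congr rfl
    intro m _
    rw [map_mul, MvPolynomial.eval_C, map_prod]
    congr 1
    apply Finset.prod_congr rfl
    intro j _
    rw [map_pow, map_sum]
    congr 1
    rw [Finset.sum_apply]
    apply Finset.sum_congr rfl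
    intro k _
    rw [map_mul, MvPolynomial.eval_X, MvPolynomial.eval_C, Pi.smul_apply, smul_eq_mul]
    ring
  have hQd : Q.totalDegree < Fintype.card S := by
    rw [Fintype.card_coe]
    refine lt_of_le_of_lt ?_ hi0
    have h1 : Q.IsHomogeneous (0 + 1 * d) := by
      refine (MvPolynomial.isHomogeneous_C _ _).mul (hP.aeval _ fun j => ?_)
      refine MvPolynomial.IsHomogeneous.sum _ _ _ fun k _ => ?_
      have h2 := (MvPolynomial.isHomogeneous_C S ((y k)⁻¹ * b k j)).mul
        (MvPolynomial.isHomogeneous_X K k)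
      rwa [zero_add] at h2
    rw [zero_add, one_mul] at h1
    exact h1.totalDegree_le
  apply false_of_unit_values (v := v) p ht.res Q hQd
  · rw [hQ]
    have h1 : (∑ k : S, ((0 : S → K) k * (y k)⁻¹) • b k) = 0 := by
      apply Finset.sum_eq_zero
      intro k _
      rw [Pi.zero_apply, zero_mul, zero_smul]
    rw [h1, h.zero, mul_zero]
  · intro x hx0
    rw [hQ, map_mul, map_inv₀]
    have hvx : ∀ k, x k ≠ 0 → v (ZMod.castHom (dvd_refl p) K (x k)) = 1 := by
      intro k hk
      have h1 : x k ^ (p - 1) = 1 := ZMod.pow_card_sub_one_eq_one hk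
      have h2 : v (ZMod.castHom (dvd_refl p) K (x k)) ^ (p - 1) = 1 := by
        rw [← map_pow, ← map_pow, h1, map_one, map_one]
      have h3 : p - 1 ≠ 0 := by
        have := (Fact.out : p.Prime).two_le
        omega
      exact (pow_left_inj₀ zero_le zero_le h3).1 (h2.trans (one_pow _).symm)
    have hle : ∀ k : S, v (ZMod.castHom (dvd_refl p) K (x k)) ≤ 1 := by
      intro k
      by_cases hk : x k = 0
      · rw [hk, map_zero, map_zero]; exact zero_le_one
      · exact (hvx k hk).le
    have hterm : ∀ k : S, v (MvPolynomial.eval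
        ((ZMod.castHom (dvd_refl p) K (x k) * (y k)⁻¹) • b k) P) =
        v (ZMod.castHom (dvd_refl p) K (x k)) ^ d * v ρ := by
      intro k
      have hyk : v (y k) ≠ 0 := (Valuation.ne_zero_iff v).2 (hy0 k)
      have h1 := h.smul (ZMod.castHom (dvd_refl p) K (x k) * (y k)⁻¹) (b k)
      rw [h1, he k k.2, map_mul, map_inv₀, mul_pow, inv_pow]
      have h2 : (v (y k) ^ d)⁻¹ * (v ρ * v (y k) ^ d) = v ρ := by
        rw [mul_comm (v ρ), inv_mul_cancel_left₀ (pow_ne_zero d hyk)]
      rw [mul_assoc, h2]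
    have hup : v (MvPolynomial.eval
        (∑ k : S, (ZMod.castHom (dvd_refl p) K (x k) * (y k)⁻¹) • b k) P) ≤ v ρ := by
      apply h.sum_le
      intro k _
      change v (MvPolynomial.eval _ P) ≤ _
      rw [hterm]
      calc v (ZMod.castHom (dvd_refl p) K (x k)) ^ d * v ρ ≤ 1 * v ρ :=
            mul_le_mul_left (pow_le_one₀ zero_le (hle k)) _
        _ = v ρ := one_mul _
    have hlow : v ρ ≤ v (MvPolynomial.eval
        (∑ k : S, (ZMod.castHom (dvd_refl p) K (x k) * (y k)⁻¹) • b k) P) := by
      obtain ⟨k0, hk0⟩ : ∃ k, x k ≠ 0 := by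
        by_contra hall
        push Not at hall
        exact hx0 (funext hall)
      let z : Fin n → K := fun k => if hk : k ∈ S then
        ZMod.castHom (dvd_refl p) K (x ⟨k, hk⟩) * (y k)⁻¹ else 0
      have hz : ∀ k : S, z k = ZMod.castHom (dvd_refl p) K (x k) * (y k)⁻¹ := by
        intro k
        simp only [z]
        rw [dif_pos k.2]
      have hz0 : ∀ k, k ∉ S → z k = 0 := by
        intro k hk
        simp only [z]
        rw [dif_neg hk]
      have h1 := hb.2 z k0
      have h2 : ∑ j, z j • b j =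
          ∑ k : S, (ZMod.castHom (dvd_refl p) K (x k) * (y k)⁻¹) • b k := by
        rw [← Finset.sum_subset (Finset.subset_univ S)
          (fun k _ hk => by rw [hz0 k hk, zero_smul]), ← Finset.sum_coe_sort]
        apply Finset.sum_congr rfl
        intro k _
        rw [hz k]
      rw [h2, ← h.smul] at h1
      rw [hz k0, hterm k0, hvx k0 hk0, one_pow, one_mul] at h1
      exact h1
    rw [le_antisymm hup hlow]
    exact inv_mul_cancel₀ hvρ

end Pool.Agent.Helper28.QF
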