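import Pool.Agent.Helper28.QF.Root
import Pool.Agent.Helper28.QF.Orth

/-!
# Anisotropic quadratic and cubic forms over henselian fields are ultrametric
-/

set_option autoImplicit false

universe u w

namespace Pool.Agent.Helper28.QF

open Pool.Agent.Helper28.EX

variable {K : Type u} {Γ : Type w} [Field K] [LinearOrderedCommGroupWithZero Γ] {v : Valuation K Γ}

theorem sum_of_homogeneous {n d : ℕ} {P : MvPolynomial (Fin n) K} (hP : P.IsHomogeneous d)
    {m : Fin n →₀ ℕ} (hm : m ∈ P.support) : ∑ i, m i = d := by
  have h2 := hP (MvPolynomial.mem_support_iff.1 hm)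
  rw [Finsupp.weight_apply, Finsupp.sum_fintype _ _ (fun i => by simp)] at h2
  simpa using h2

theorem line_monomial {n : ℕ} (a b : Fin n → K) (m : Fin n → ℕ) (s : Finset (Fin n)) :
    (∏ i ∈ s, (Polynomial.C (a i) + Polynomial.C (b i) * Polynomial.X) ^ m i).natDegree ≤
        ∑ i ∈ s, m i ∧
      (∏ i ∈ s, (Polynomial.C (a i) + Polynomial.C (b i) * Polynomial.X) ^ m i).coeff
        (∑ i ∈ s, m i) = ∏ i ∈ s, b i ^ m i := by
  classical
  have hl : ∀ i, (Polynomial.C (a i) + Polynomial.C (b i) * Polynomial.X).natDegree ≤ 1 := by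
    intro i
    rw [add_comm]
    exact Polynomial.natDegree_linear_le
  have hc : ∀ i, (Polynomial.C (a i) + Polynomial.C (b i) * Polynomial.X).coeff 1 = b i := by
    intro i
    rw [Polynomial.coeff_add, Polynomial.coeff_C_mul, Polynomial.coeff_X_one, Polynomial.coeff_C,
      if_neg one_ne_zero, zero_add, mul_one]
  have hp : ∀ i, ((Polynomial.C (a i) + Polynomial.C (b i) * Polynomial.X) ^ m i).natDegree ≤
      m i := by
    intro i
    refine Polynomial.natDegree_pow_le.trans ?_
    calc m i * _ ≤ m i * 1 := Nat.mul_le_mul_left _ (hl i)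
      _ = m i := mul_one _
  have hpc : ∀ i, ((Polynomial.C (a i) + Polynomial.C (b i) * Polynomial.X) ^ m i).coeff (m i) =
      b i ^ m i := by
    intro i
    have h1 := Polynomial.coeff_pow_of_natDegree_le (hl i) (m := m i)
    rw [mul_one, hc] at h1
    exact h1
  induction s using Finset.induction_on with
  | empty => simp
  | insert i s hi ih =>
    rw [Finset.prod_insert hi, Finset.sum_insert hi, Finset.prod_insert hi]
    refine ⟨?_, ?_⟩
    · exact Polynomial.natDegree_mul_le.trans (add_le_add (hp i) ih.1)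
    · rw [Polynomial.coeff_mul_add_eq_of_natDegree_le (hp i) ih.1, hpc, ih.2]

/-- restriction of a form to a line -/
theorem line_poly {n d : ℕ} {P : MvPolynomial (Fin n) K} (hP : P.IsHomogeneous d)
    (a b : Fin n → K) : ∃ q : Polynomial K, q.natDegree ≤ d ∧
      q.coeff 0 = MvPolynomial.eval a P ∧ q.coeff d = MvPolynomial.eval b P ∧
      ∀ x, q.eval x = MvPolynomial.eval (a + x • b) P := by
  have hev : ∀ x, (∑ m ∈ P.support, Polynomial.C (P.coeff m) *
      ∏ i, (Polynomial.C (a i) + Polynomial.C (b i) * Polynomial.X) ^ m i).eval x =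
      MvPolynomial.eval (a + x • b) P := by
    intro x
    rw [Polynomial.eval_finsetSum, MvPolynomial.eval_eq']
    apply Finset.sum_congr rfl
    intro m _
    rw [Polynomial.eval_mul, Polynomial.eval_C, Polynomial.eval_prod]
    congr 1
    apply Finset.prod_congr rfl
    intro i _
    rw [Polynomial.eval_pow, Polynomial.eval_add, Polynomial.eval_mul, Polynomial.eval_C,
      Polynomial.eval_C, Polynomial.eval_X, Pi.add_apply, Pi.smul_apply, smul_eq_mul, mul_comm x]
  refine ⟨_, ?_, ?_, ?_, hev⟩
  · apply Polynomial.natDegree_sum_le_of_forall_le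
    intro m hm
    refine (Polynomial.natDegree_C_mul_le _ _).trans ?_
    have h1 := (line_monomial a b m Finset.univ).1
    rwa [sum_of_homogeneous hP hm] at h1
  · rw [Polynomial.coeff_zero_eq_eval_zero, hev, zero_smul, add_zero]
  · rw [Polynomial.finsetSum_coeff, MvPolynomial.eval_eq']
    apply Finset.sum_congr rfl
    intro m hm
    rw [Polynomial.coeff_C_mul]
    congr 1
    have h1 := (line_monomial a b m Finset.univ).2
    rwa [sum_of_homogeneous hP hm] at h1

/-- an anisotropic quadratic or cubic form over a henselian field is ultrametric -/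
theorem ult_of_aniso (h : Hens v) {n d : ℕ} (hd : d = 2 ∨ d = 3) {P : MvPolynomial (Fin n) K}
    (hP : P.IsHomogeneous d) (hom : ∀ (c : K) (x : Fin n → K),
      MvPolynomial.eval (c • x) P = c ^ d * MvPolynomial.eval x P)
    (ha : ∀ x, MvPolynomial.eval x P = 0 → x = 0) (a b : Fin n → K) :
    v (MvPolynomial.eval (a + b) P) ≤
      max (v (MvPolynomial.eval a P)) (v (MvPolynomial.eval b P)) := by
  obtain ⟨q, hqd, hq0, hq1, hq⟩ := line_poly hP a b
  by_cases hroot : ∃ x : K, MvPolynomial.eval (a + x • b) P = 0
  · obtain ⟨x, hx⟩ := hroot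
    have h1 : a = (-x) • b := by
      rw [neg_smul]
      exact eq_neg_of_add_eq_zero_left (ha _ hx)
    have h2 : a + b = (1 + -x) • b := by rw [add_smul, one_smul, h1, add_comm]
    have h3 : v (MvPolynomial.eval a P) = v (-x) ^ d * v (MvPolynomial.eval b P) := by
      rw [← map_pow, ← map_mul, ← hom, ← h1]
    rw [h2, hom, map_mul, map_pow, h3]
    have h4 : v (1 + -x) ≤ max 1 (v (-x)) := by
      have h5 := v.map_add 1 (-x)
      rwa [map_one] at h5
    rcases le_max_iff.1 h4 with h5 | h5
    · apply le_max_of_le_right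
      calc v (1 + -x) ^ d * v (MvPolynomial.eval b P) ≤ 1 * v (MvPolynomial.eval b P) :=
            mul_le_mul_left (pow_le_one₀ zero_le h5) _
        _ = _ := one_mul _
    · apply le_max_of_le_left
      exact mul_le_mul_left (pow_le_pow_left₀ zero_le h5 d) _
  · push Not at hroot
    by_cases hb : b = 0
    · rw [hb, add_zero]
      exact le_max_left _ _
    have hfb : MvPolynomial.eval b P ≠ 0 := fun h0 => hb (ha b h0)
    have hfa : MvPolynomial.eval a P ≠ 0 := by
      have h1 := hroot 0
      rwa [zero_smul, add_zero] at h1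
    have h1 := hq 1
    rw [one_smul] at h1
    rw [← h1]
    rcases hd with rfl | rfl
    · have hsum : ∀ x, q.eval x = q.coeff 0 + q.coeff 1 * x + q.coeff 2 * x ^ 2 := by
        intro x
        rw [Polynomial.eval_eq_sum_range' (Nat.lt_succ_of_le hqd) x]
        simp [Finset.sum_range_succ]
      have hc1 : v (q.coeff 1) ≤ max (v (q.coeff 0)) (v (q.coeff 2)) := by
        by_contra hlt
        rw [not_le, max_lt_iff] at hlt
        have hp0 : 0 < v (q.coeff 1) := lt_of_le_of_lt zero_le hlt.1
        obtain ⟨x, hx⟩ := root_of h (c0 := q.coeff 0) (c1 := q.coeff 1) (c2 := q.coeff 2)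
          (c3 := 0) (by
            rw [sq]
            exact mul_lt_mul'' hlt.1 hlt.2 zero_le zero_le) (by
            rw [map_zero, mul_zero]
            exact pow_pos hp0 3)
        apply hroot x
        rw [← hq, hsum]
        rw [zero_mul, add_zero] at hx
        exact hx
      rw [hsum, mul_one, one_pow, mul_one, ← hq0, ← hq1]
      exact (v.map_add _ _).trans (max_le ((v.map_add _ _).trans (max_le (le_max_left _ _) hc1))
        (le_max_right _ _))
    · have hsum : ∀ x, q.eval x = q.coeff 0 + q.coeff 1 * x + q.coeff 2 * x ^ 2 +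
          q.coeff 3 * x ^ 3 := by
        intro x
        rw [Polynomial.eval_eq_sum_range' (Nat.lt_succ_of_le hqd) x]
        simp [Finset.sum_range_succ]
      have hn : ∀ x, q.coeff 0 + q.coeff 1 * x + q.coeff 2 * x ^ 2 + q.coeff 3 * x ^ 3 ≠ 0 := by
        intro x
        rw [← hsum, hq]
        exact hroot x
      have hc1 := le_max_of_cube (le_of_no_root h (by rw [hq0]; exact hfa)
        (by rw [hq1]; exact hfb) hn)
      have hc2 := le_max_of_cube (le_of_no_root' h (by rw [hq0]; exact hfa)
        (by rw [hq1]; exact hfb) hn)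
      rw [max_comm] at hc2
      rw [hsum, mul_one, one_pow, mul_one, one_pow, mul_one, ← hq0, ← hq1]
      exact (v.map_add _ _).trans (max_le ((v.map_add _ _).trans (max_le
        ((v.map_add _ _).trans (max_le (le_max_left _ _) hc1)) hc2)) (le_max_right _ _))

end Pool.Agent.Helper28.QF
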