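import Pool.Agent.Helper28.QF.Main
import Pool.Agent.Helper28.QF.Line

/-!
# Orthogonal bases, final form
-/

set_option autoImplicit false

universe u w

namespace Pool.Agent.Helper28.QF

open Pool.Agent.Helper28.EX

variable {K : Type u} {Γ : Type w} [Field K] [LinearOrderedCommGroupWithZero Γ] {v : Valuation K Γ}

theorem basis_of_orth {n d : ℕ} {f : (Fin n → K) → K} (h : NormLike v n d f)
    {b : Fin n → Fin n → K} (hb : Orth v d f b) :
    ∃ c : Module.Basis (Fin n) K (Fin n → K), ∀ i, c i = b i := by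
  have hli : LinearIndependent K b := by
    rw [Fintype.linearIndependent_iff]
    intro y hy i
    have h1 := hb.2 y i
    rw [hy, h.zero, map_zero, le_zero_iff, mul_eq_zero] at h1
    rcases h1 with h1 | h1
    · exact (Valuation.zero_iff v).1 (eq_zero_of_pow_eq_zero h1)
    · exact absurd h1 (h.pos (hb.1 i)).ne'
  rcases Nat.eq_zero_or_pos n with rfl | hn
  · exact ⟨Pi.basisFun K (Fin 0), fun i => i.elim0⟩
  · have : Nonempty (Fin n) := ⟨⟨0, hn⟩⟩
    refine ⟨basisOfLinearIndependentOfCardEqFinrank hli (by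
      rw [Fintype.card_fin, Module.finrank_fin_fun]), fun i => ?_⟩
    rw [coe_basisOfLinearIndependentOfCardEqFinrank]

theorem normLike_of {n d : ℕ} {P : MvPolynomial (Fin n) K} (hx : Extremal v)
    (hP : P.IsHomogeneous d) (hd : 0 < d) (ha : ∀ x, MvPolynomial.eval x P = 0 → x = 0)
    (hu : d = 2 ∨ d = 3 ∨ ∀ a b, v (MvPolynomial.eval (a + b) P) ≤
      max (v (MvPolynomial.eval a P)) (v (MvPolynomial.eval b P))) :
    NormLike v n d (fun x => MvPolynomial.eval x P) := by
  refine ⟨⟨P, fun _ => rfl⟩, hd.ne', fun c x => eval_smul_of_homogeneous hP c x, ?_, ha⟩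
  have h23 : d = 2 ∨ d = 3 → ∀ a b, v (MvPolynomial.eval (a + b) P) ≤
      max (v (MvPolynomial.eval a P)) (v (MvPolynomial.eval b P)) := fun h =>
    ult_of_aniso (hens_of_extremal hx) h hP (fun c x => eval_smul_of_homogeneous hP c x) ha
  rcases hu with h | h | h
  · exact h23 (Or.inl h)
  · exact h23 (Or.inr h)
  · exact h

theorem orth_basis {n d : ℕ} {f : (Fin n → K) → K} (hx : Extremal v) (h : NormLike v n d f) :
    ∃ b : Module.Basis (Fin n) K (Fin n → K), ∀ y : Fin n → K,
      v (f (∑ i, y i • b i)) = Finset.univ.sup fun i => v (y i) ^ d * v (f (b i)) := by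
  obtain ⟨b, hb⟩ := h.basis hx
  obtain ⟨c, hc⟩ := basis_of_orth h hb
  refine ⟨c, fun y => ?_⟩
  simp only [hc]
  apply le_antisymm
  · apply h.sum_le
    intro i _
    rw [h.smul]
    exact Finset.le_sup (f := fun i => v (y i) ^ d * v (f (b i))) (Finset.mem_univ i)
  · apply Finset.sup_le
    intro i _
    exact hb.2 y i

end Pool.Agent.Helper28.QF
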