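import Pool.Agent.Helper28.EX.Hens

/-!
# Cubic polynomials without roots over henselian fields
-/

set_option autoImplicit false

universe u w

namespace Pool.Agent.Helper28.QF

open Pool.Agent.Helper28.EX

variable {K : Type u} {Γ : Type w} [Field K] [LinearOrderedCommGroupWithZero Γ] {v : Valuation K Γ}

theorem v_nat_le (n : ℕ) : v (n : K) ≤ 1 := by
  induction n with
  | zero => simp
  | succ n ih =>
    rw [Nat.cast_succ]
    exact (v.map_add _ _).trans (max_le ih (by rw [map_one]))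

theorem root_one (h : Hens v) {α β : K} (hα : v α < 1) (hβ : v β < 1) :
    ∃ y, 1 + y + α * y ^ 2 + β * y ^ 3 = 0 := by
  set u : K := 1 + (3 * β - 2 * α) with hu
  have h3 : v (3 * β) < 1 := by
    rw [map_mul]
    exact (mul_le_mul_left (by exact_mod_cast v_nat_le (v := v) 3) _).trans_lt
      (by rw [one_mul]; exact hβ)
  have h2 : v (2 * α) < 1 := by
    rw [map_mul]
    exact (mul_le_mul_left (by exact_mod_cast v_nat_le (v := v) 2) _).trans_lt
      (by rw [one_mul]; exact hα)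
  have hu1 : v u = 1 := v.map_one_add_of_lt ((v.map_sub _ _).trans_lt (max_lt h3 h2))
  have hu0 : u ≠ 0 := by
    intro h0
    rw [h0, map_zero] at hu1
    exact zero_ne_one hu1
  have hui : v u⁻¹ = 1 := by rw [map_inv₀, hu1, inv_one]
  let G : Polynomial K := Polynomial.C (u⁻¹ * (α - β)) + Polynomial.X +
    Polynomial.C (u⁻¹ * (α - 3 * β)) * Polynomial.X ^ 2 +
    Polynomial.C (u⁻¹ * β) * Polynomial.X ^ 3
  have hG : ∀ k, G.coeff k = (if k = 0 then u⁻¹ * (α - β) else 0) + (if 1 = k then 1 else 0) +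
      u⁻¹ * (α - 3 * β) * (if k = 2 then 1 else 0) + u⁻¹ * β * (if k = 3 then 1 else 0) := by
    intro k
    simp only [G, Polynomial.coeff_add, Polynomial.coeff_C, Polynomial.coeff_X,
      Polynomial.coeff_C_mul, Polynomial.coeff_X_pow]
  obtain ⟨y, -, hy⟩ := h G (by rw [hG]; norm_num) (by
    intro k hk
    rw [hG]
    by_cases h0 : k = 0
    · subst h0
      norm_num
      rw [hu1, inv_one, one_mul]
      exact (v.map_sub _ _).trans_lt (max_lt hα hβ)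
    · by_cases hk2 : k = 2
      · subst hk2
        norm_num
        rw [hu1, inv_one, one_mul]
        exact (v.map_sub _ _).trans_lt (max_lt hα h3)
      · by_cases hk3 : k = 3
        · subst hk3
          norm_num
          rw [hu1, inv_one, one_mul]
          exact hβ
        · rw [if_neg h0, if_neg (Ne.symm hk), if_neg hk2, if_neg hk3]
          simp)
  have hev : G.eval y = u⁻¹ * (α - β) + y + u⁻¹ * (α - 3 * β) * y ^ 2 + u⁻¹ * β * y ^ 3 := by
    simp only [G, Polynomial.eval_add, Polynomial.eval_mul, Polynomial.eval_C, Polynomial.eval_X,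
      Polynomial.eval_pow]
  refine ⟨y - 1, ?_⟩
  have h4 : u * G.eval y = 0 := by rw [hy, mul_zero]
  have h5 : u * G.eval y = (α - β) + u * y + (α - 3 * β) * y ^ 2 + β * y ^ 3 := by
    rw [hev]
    field_simp
  rw [← h4, h5, hu]
  ring

theorem root_of (h : Hens v) {c0 c1 c2 c3 : K} (h2 : v c0 * v c2 < v c1 ^ 2)
    (h3 : v c0 ^ 2 * v c3 < v c1 ^ 3) : ∃ x, c0 + c1 * x + c2 * x ^ 2 + c3 * x ^ 3 = 0 := by
  have hc1 : c1 ≠ 0 := by
    intro h0
    rw [h0, map_zero, zero_pow two_ne_zero] at h2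
    exact not_lt_zero h2
  have hv1 : 0 < v c1 := zero_lt_iff.2 ((Valuation.ne_zero_iff v).2 hc1)
  obtain ⟨y, hy⟩ := root_one h (α := c0 * c2 / c1 ^ 2) (β := c0 ^ 2 * c3 / c1 ^ 3)
    (by rw [map_div₀, map_mul, map_pow, div_lt_one₀ (pow_pos hv1 2)]; exact h2)
    (by rw [map_div₀, map_mul, map_pow, map_pow, div_lt_one₀ (pow_pos hv1 3)]; exact h3)
  refine ⟨c0 / c1 * y, ?_⟩
  have h4 : c0 + c1 * (c0 / c1 * y) + c2 * (c0 / c1 * y) ^ 2 + c3 * (c0 / c1 * y) ^ 3 =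
      c0 * (1 + y + c0 * c2 / c1 ^ 2 * y ^ 2 + c0 ^ 2 * c3 / c1 ^ 3 * y ^ 3) := by
    field_simp
  rw [h4, hy, mul_zero]

theorem le_of_no_root (h : Hens v) {c0 c1 c2 c3 : K} (h0 : c0 ≠ 0) (h3 : c3 ≠ 0)
    (hn : ∀ x, c0 + c1 * x + c2 * x ^ 2 + c3 * x ^ 3 ≠ 0) : v c1 ^ 3 ≤ v c0 ^ 2 * v c3 := by
  by_contra hlt
  rw [not_le] at hlt
  have p0 : 0 < v c0 := zero_lt_iff.2 ((Valuation.ne_zero_iff v).2 h0)
  have p3 : 0 < v c3 := zero_lt_iff.2 ((Valuation.ne_zero_iff v).2 h3)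
  have p1 : 0 < v c1 := by
    rw [zero_lt_iff]
    intro h1
    rw [h1, zero_pow three_ne_zero] at hlt
    exact not_lt_zero hlt
  by_cases h2 : v c0 * v c2 < v c1 ^ 2
  · obtain ⟨x, hx⟩ := root_of h h2 hlt
    exact hn x hx
  · rw [not_lt] at h2
    have e1 : v c3 * v c1 < v c2 ^ 2 := by
      apply lt_of_mul_lt_mul_left' (a := v c0 ^ 2)
      calc v c0 ^ 2 * (v c3 * v c1) = (v c0 ^ 2 * v c3) * v c1 := (mul_assoc _ _ _).symm
        _ < v c1 ^ 3 * v c1 := mul_lt_mul_of_pos_right hlt p1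
        _ = (v c1 ^ 2) ^ 2 := by rw [← pow_succ, ← pow_mul]
        _ ≤ (v c0 * v c2) ^ 2 := pow_le_pow_left₀ zero_le h2 2
        _ = v c0 ^ 2 * v c2 ^ 2 := mul_pow _ _ _
    have e2 : v c3 ^ 2 * v c0 < v c2 ^ 3 := by
      apply lt_of_mul_lt_mul_left' (a := v c0 ^ 3)
      calc v c0 ^ 3 * (v c3 ^ 2 * v c0) = (v c0 ^ 2 * v c3) ^ 2 := by
            rw [mul_pow, ← pow_mul, mul_comm (v c3 ^ 2), ← mul_assoc, ← pow_succ]
        _ < (v c1 ^ 3) ^ 2 := pow_lt_pow_left₀ hlt zero_le two_ne_zero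
        _ = (v c1 ^ 2) ^ 3 := by rw [← pow_mul, ← pow_mul]
        _ ≤ (v c0 * v c2) ^ 3 := pow_le_pow_left₀ zero_le h2 3
        _ = v c0 ^ 3 * v c2 ^ 3 := mul_pow _ _ _
    obtain ⟨x, hx⟩ := root_of h e1 e2
    have hx0 : x ≠ 0 := by
      intro hx0
      rw [hx0] at hx
      apply h3
      linear_combination hx
    apply hn x⁻¹
    have h4 : c0 + c1 * x⁻¹ + c2 * x⁻¹ ^ 2 + c3 * x⁻¹ ^ 3 =
        x⁻¹ ^ 3 * (c3 + c2 * x + c1 * x ^ 2 + c0 * x ^ 3) := by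
      field_simp
      ring
    rw [h4, hx, mul_zero]

theorem le_of_no_root' (h : Hens v) {c0 c1 c2 c3 : K} (h0 : c0 ≠ 0) (h3 : c3 ≠ 0)
    (hn : ∀ x, c0 + c1 * x + c2 * x ^ 2 + c3 * x ^ 3 ≠ 0) : v c2 ^ 3 ≤ v c3 ^ 2 * v c0 := by
  apply le_of_no_root h (c2 := c1) h3 h0
  intro x hx
  have hx0 : x ≠ 0 := by
    intro hx0
    rw [hx0] at hx
    apply h3
    linear_combination hx
  apply hn x⁻¹
  have h4 : c0 + c1 * x⁻¹ + c2 * x⁻¹ ^ 2 + c3 * x⁻¹ ^ 3 =
      x⁻¹ ^ 3 * (c3 + c2 * x + c1 * x ^ 2 + c0 * x ^ 3) := by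
    field_simp
    ring
  rw [h4, hx, mul_zero]

theorem le_max_of_cube {a b c : Γ} (h : a ^ 3 ≤ b ^ 2 * c) : a ≤ max b c := by
  by_contra hlt
  rw [not_le, max_lt_iff] at hlt
  have h1 : b ^ 2 * c < a ^ 3 := by
    have ha : 0 < a := lt_of_le_of_lt zero_le hlt.1
    calc b ^ 2 * c ≤ a ^ 2 * c := mul_le_mul_left (pow_le_pow_left₀ zero_le hlt.1.le 2) _
      _ < a ^ 2 * a := mul_lt_mul_of_pos_left hlt.2 (pow_pos ha 2)
      _ = a ^ 3 := (pow_succ a 2).symm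
  exact absurd h (not_le.2 h1)

end Pool.Agent.Helper28.QF
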